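import Pool.Agent.MP_8487d8_lc.Defs
import Pool.Agent.MP_8487d8_lc.Proof

namespace Pool.Agent.Results.MP_8487d8_lc.ThreeLower

open Pool.Agent.MP_8487d8_lc

/-- The optimal worst-case ratio of non-adaptive algorithms on simple graphs is at least `3`. -/
theorem result : 3 ≤ rhoSimple := three_le_rhoSimple

end Pool.Agent.Results.MP_8487d8_lc.ThreeLower
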